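import Mathlib
import Pool.Agent.H.MP_fa571f_co.Word

/-!
# The biased sequence game: Player 1 on `{0,1,2}`, Player 2 on `{0,1}`

Player 1 wins.  He plays, whatever Player 2 does, the consecutive letters of a fixed squarefree
ternary word `w` that avoids the factors `010` and `101`
(see `Pool.Agent.H.MP_fa571f_co.Word` for the construction of `w`).
-/

namespace Pool.Agent.Results.MP_fa571f_co.PlayerOneWins

open Pool.Agent.H.MP_fa571f_co

/-- The biased game on sequences (positions are numbered from `0`, so that Player 1 chooses the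
symbols at the even positions and Player 2 those at the odd positions).  There is a strategy `σ` of
Player 1, that is a function giving his next symbol in `{0,1,2}` from the finite sequence of all
symbols played so far, such that every infinite sequence `s` in which Player 1 follows `σ` and
Player 2 plays arbitrary symbols in `{0,1}` contains no square `xx` with `|x| ≥ 2`. -/
theorem result :
    ∃ σ : List (Fin 3) → Fin 3,
      ∀ s : ℕ → Fin 3,
        (∀ i, s (2 * i) = σ (List.ofFn (fun j : Fin (2 * i) => s j))) →
        (∀ i, s (2 * i + 1) = 0 ∨ s (2 * i + 1) = 1) →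
        ¬ ∃ k r : ℕ, 2 ≤ r ∧ ∀ i < r, s (k + i) = s (k + r + i) := by
  refine ⟨fun h => ⟨w (h.length / 2), by have := w_le (h.length / 2); omega⟩, ?_⟩
  intro s h1 h2
  rintro ⟨k, r, hr, hsq⟩
  have u1 : ∀ i, (s (2 * i) : ℕ) = w i := by
    intro i
    rw [h1 i]
    simp
  have u2 : ∀ i, (s (2 * i + 1) : ℕ) ≤ 1 := by
    intro i
    rcases h2 i with h | h <;> rw [h] <;> simp
  have hsq' : ∀ i < r, (s (k + i) : ℕ) = (s (k + r + i) : ℕ) := fun i hi => by rw [hsq i hi]
  have sc : ∀ {a b : ℕ}, a = b → (s a : ℕ) = (s b : ℕ) := fun h => by rw [h]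
  rcases Nat.even_or_odd' r with ⟨m, hm | hm⟩
  · -- even length
    rcases Nat.even_or_odd' k with ⟨c, hc | hc⟩
    · refine w_sqfree (k := c) (r := m) (by omega) (fun i hi => ?_)
      have := hsq' (2 * i) (by omega)
      rw [← u1, ← u1, sc (show 2 * (c + i) = k + 2 * i by omega), this]
      exact sc (by omega)
    · refine w_sqfree (k := c + 1) (r := m) (by omega) (fun i hi => ?_)
      have := hsq' (2 * i + 1) (by omega)
      rw [← u1, ← u1, sc (show 2 * (c + 1 + i) = k + (2 * i + 1) by omega), this]
      exact sc (by omega)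
  · -- odd length
    have small : ∀ i < 2 * r, (s (k + i) : ℕ) ≤ 1 := by
      intro i hi
      rcases Nat.lt_or_ge i r with h | h
      · have e := hsq' i h
        rcases Nat.even_or_odd' (k + i) with ⟨c, hc | hc⟩
        · -- the partner position is odd
          rw [e, sc (show k + r + i = 2 * (c + m) + 1 by omega)]
          exact u2 _
        · rw [hc]; exact u2 _
      · have e := hsq' (i - r) (by omega)
        rw [sc (show k + r + (i - r) = k + i by omega)] at e
        rcases Nat.even_or_odd' (k + i) with ⟨c, hc | hc⟩
        · rw [← e, sc (show k + (i - r) = 2 * (c - m - 1) + 1 by omega)]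
          exact u2 _
        · rw [hc]; exact u2 _
    obtain ⟨c, hc1, hc2⟩ : ∃ c, k ≤ 2 * c ∧ 2 * c ≤ k + 1 := ⟨(k + 1) / 2, by omega, by omega⟩
    have w0 : w c ≤ 1 := by
      have := small (2 * c - k) (by omega)
      rw [sc (show k + (2 * c - k) = 2 * c by omega), u1] at this
      exact this
    have w1 : w (c + 1) ≤ 1 := by
      have := small (2 * (c + 1) - k) (by omega)
      rw [sc (show k + (2 * (c + 1) - k) = 2 * (c + 1) by omega), u1] at this
      exact this
    have w2 : w (c + 2) ≤ 1 := by
      have := small (2 * (c + 2) - k) (by omega)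
      rw [sc (show k + (2 * (c + 2) - k) = 2 * (c + 2) by omega), u1] at this
      exact this
    have n1 : w c ≠ w (c + 1) := fun h =>
      w_sqfree (k := c) (r := 1) (le_refl _) (fun i hi => by
        have : i = 0 := by omega
        subst this; simpa using h)
    have n2 : w (c + 1) ≠ w (c + 2) := fun h =>
      w_sqfree (k := c + 1) (r := 1) (le_refl _) (fun i hi => by
        have : i = 0 := by omega
        subst this; simpa using h)
    have hcase : (w c = 0 ∧ w (c + 1) = 1 ∧ w (c + 2) = 0) ∨
        (w c = 1 ∧ w (c + 1) = 0 ∧ w (c + 2) = 1) := by omega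
    rcases hcase with ⟨a, b, d⟩ | ⟨a, b, d⟩
    · exact w_no010 a b d
    · exact w_no101 a b d

end Pool.Agent.Results.MP_fa571f_co.PlayerOneWins
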